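import Pool.Agent.N208.BT.Stm2

set_option autoImplicit false
set_option linter.unusedSectionVars false

/-!
# The Lie algebra on the simple submodule (statement S_RR of project BT)
-/

open Module Matrix

noncomputable section

namespace Pool.Agent.N272.BTRR

open Pool.Agent.Y102 Pool.Agent.W516.DR Pool.Agent.H204R3.GP Pool.Agent.W516.KC
  Pool.Agent.H204R3.SP Pool.Agent.TH119.MX Pool.Agent.R917 Pool.Agent.N208.AM Pool.Agent.N208.AD
  Pool.Agent.N208.BT

variable {g : ℕ} {A : AbVar g}

theorem hf_I_left {n : ℕ} (x y : V n) : hf (Complex.I • x) y = Complex.I * hf x y := by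
  simp only [hf, Pi.smul_apply, smul_eq_mul, mul_sub, Finset.mul_sum, mul_assoc]

theorem c_smul {n : ℕ} (c : ℂ) (x : V n) : c • x = c.re • x + c.im • (Complex.I • x) := by
  ext i
  simp only [Pi.smul_apply, Pi.add_apply, smul_eq_mul, Complex.real_smul]
  conv_lhs => rw [← Complex.re_add_im c]
  ring

/-- a real linear map which commutes with `i` is given by a matrix -/
theorem exists_mat {n : ℕ} (f : V n →ₗ[ℝ] V n) (hf' : ∀ x, f (Complex.I • x) = Complex.I • f x) :
    ∃ m : M n, ∀ x, f x = m *ᵥ x := by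
  let F : V n →ₗ[ℂ] V n :=
    { toFun := f
      map_add' := fun a b => map_add f a b
      map_smul' := fun c x => by
        rw [RingHom.id_apply, c_smul, map_add, map_smul, map_smul, hf', ← c_smul] }
  refine ⟨LinearMap.toMatrix' F, fun x => ?_⟩
  rw [LinearMap.toMatrix'_mulVec]
  rfl

section

variable {z : Module.End ℚ A.H1} {al : ℝ} (h : HT A z al) {n : ℕ} {φ : V n →ₗ[ℝ] (Fin g → ℂ)}
  (w : WD A z al n φ)

include h w

theorem ext_z (x : V n) : A.ext z (φ x) = φ (al • (Complex.I • x)) := by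
  rw [map_smul, w.mulI, smul_smul, mul_inv_cancel₀ h.ne, one_smul]

theorem mat_NA {X : Module.End ℚ A.H1} (hX : X ∈ A.NA) :
    ∃ m : M n, ∀ x, A.ext X (φ x) = φ (m *ᵥ x) := by
  choose f hf' using w.stab X hX
  let F : V n →ₗ[ℝ] V n :=
    { toFun := f
      map_add' := fun a b => w.inj (by rw [← hf', map_add, map_add, map_add, hf', hf'])
      map_smul' := fun c a => w.inj (by
        rw [← hf', map_smul, map_smul, RingHom.id_apply, map_smul, hf']) }
  obtain ⟨m, hm⟩ := exists_mat F fun x => w.inj (by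
    change φ (f (Complex.I • x)) = φ (Complex.I • f x)
    have hc : A.ext X * A.ext z = A.ext z * A.ext X := by
      rw [← ext_mul, ← ext_mul, A.NA_comm hX h.mem]
    have hc' : A.ext X (A.ext z (φ x)) = A.ext z (A.ext X (φ x)) :=
      LinearMap.congr_fun hc (φ x)
    rw [← hf', w.mulI, map_smul, hc', hf', w.mulI])
  refine ⟨m, fun x => ?_⟩
  rw [← hm, hf']
  rfl

theorem mat_spE {y : Module.End ℝ (Fin g → ℂ)}
    (hy : y ∈ spE A (A.NA : Set (Module.End ℚ A.H1))) :
    ∃ m : M n, ∀ x, y (φ x) = φ (m *ᵥ x) := by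
  induction hy using Submodule.span_induction with
  | mem y hy =>
    obtain ⟨X, hX, rfl⟩ := hy
    exact mat_NA h w hX
  | zero => exact ⟨0, fun x => by rw [LinearMap.zero_apply, Matrix.zero_mulVec, map_zero]⟩
  | add a b _ _ ha hb =>
    obtain ⟨m, hm⟩ := ha
    obtain ⟨m', hm'⟩ := hb
    exact ⟨m + m', fun x => by
      rw [LinearMap.add_apply, Matrix.add_mulVec, map_add, hm, hm']⟩
  | smul c a _ ha =>
    obtain ⟨m, hm⟩ := ha
    exact ⟨c • m, fun x => by
      rw [LinearMap.smul_apply, Matrix.smul_mulVec, map_smul, hm]⟩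

theorem mat_unique {m m' : M n} (hm : ∀ x, φ (m *ᵥ x) = φ (m' *ᵥ x)) : m = m' :=
  Matrix.mulVec_injective (funext fun x => w.inj (hm x))

end

theorem spE_mono {S T : Submodule ℚ (Module.End ℚ A.H1)} (hST : S ≤ T) :
    spE A (S : Set (Module.End ℚ A.H1)) ≤ spE A (T : Set (Module.End ℚ A.H1)) :=
  Submodule.span_mono (by rintro y ⟨X, hX, rfl⟩; exact ⟨X, hST hX, rfl⟩)

/-- the elements of the real span are skew for `E` -/
theorem skew_spE {y : Module.End ℝ (Fin g → ℂ)}
    (hy : y ∈ spE A (A.NA : Set (Module.End ℚ A.H1))) (u v : Fin g → ℂ) :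
    A.E (y u) v = -A.E u (y v) := by
  induction hy using Submodule.span_induction with
  | mem y hy =>
    obtain ⟨X, hX, rfl⟩ := hy
    have h2 : A.E.comp (A.ext X) = -(A.E.flip.comp (A.ext X)).flip := by
      refine A.ext_per fun u => A.ext_per fun v => ?_
      change A.E (A.ext X (A.per u)) (A.per v) = -A.E (A.per u) (A.ext X (A.per v))
      rw [A.ext_apply, A.ext_apply, ← A.om_coe, ← A.om_coe, ← Rat.cast_neg]
      congr 1
      linear_combination A.NA_skew hX u v
    exact congrArg (fun F : (Fin g → ℂ) →ₗ[ℝ] (Fin g → ℂ) →ₗ[ℝ] ℝ => F u v) h2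
  | zero =>
    rw [LinearMap.zero_apply, LinearMap.zero_apply, map_zero, map_zero, LinearMap.zero_apply,
      neg_zero]
  | add a b _ _ ha hb =>
    rw [LinearMap.add_apply, LinearMap.add_apply, map_add, map_add, LinearMap.add_apply, ha, hb,
      neg_add]
  | smul c a _ ha =>
    rw [LinearMap.smul_apply, LinearMap.smul_apply, map_smul, map_smul, LinearMap.smul_apply, ha,
      smul_neg]

theorem main : S_RR := by
  intro g A z al h n φ w 𝔮 hq
  have hle : spE A (der 𝔮 : Set (Module.End ℚ A.H1)) ≤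
      spE A (A.NA : Set (Module.End ℚ A.H1)) := spE_mono (hq.der_le.trans hq.le)
  refine ⟨?_, ?_, ?_, ?_⟩
  · -- skew
    rintro m ⟨y, hy, hm⟩ x x'
    have key : ∀ x x' : V n, (hf (m *ᵥ x) x' + hf x (m *ᵥ x')).im = 0 := by
      intro x x'
      rw [Complex.add_im, w.form, w.form, ← hm, ← hm, skew_spE (hle hy)]
      ring
    have k1 := key x x'
    have k2 := key (Complex.I • x) x'
    rw [Matrix.mulVec_smul, hf_I_left, hf_I_left, ← mul_add, Complex.I_mul_im] at k2
    exact Complex.ext k2 k1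
  · -- brackets
    rintro m ⟨y, hy, hm⟩ m' ⟨y', hy', hm'⟩
    refine ⟨y * y' - y' * y, spE_br (fun X hX Y hY => ?_) y hy y' hy', fun x => ?_⟩
    · exact Submodule.subset_span ⟨X, hq.der_le hX, Y, hq.der_le hY, rfl⟩
    · rw [LinearMap.sub_apply, Module.End.mul_apply, Module.End.mul_apply, hm', hm, hm, hm',
        ← map_sub, Matrix.mulVec_mulVec, Matrix.mulVec_mulVec, ← Matrix.sub_mulVec]
  · -- perfect
    rintro m ⟨y, hy, hm⟩
    have hder : ∀ X ∈ der 𝔮, ∃ m : M n, ∀ x, A.ext X (φ x) = φ (m *ᵥ x) := fun X hX =>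
      mat_NA h w (hq.le (hq.der_le hX))
    -- rational step
    have step : ∀ X ∈ Submodule.span ℚ {Z | ∃ X ∈ der 𝔮, ∃ Y ∈ der 𝔮, Z = X * Y - Y * X},
        ∃ m : M n, (∀ x, A.ext X (φ x) = φ (m *ᵥ x)) ∧
          m ∈ Submodule.span ℝ {Z | ∃ X ∈ rW A (der 𝔮) φ, ∃ Y ∈ rW A (der 𝔮) φ,
            Z = X * Y - Y * X} := by
      intro X hX
      induction hX using Submodule.span_induction with
      | mem X hX =>
        obtain ⟨P, hP, Q, hQ, rfl⟩ := hX
        obtain ⟨mP, hmP⟩ := hder P hP
        obtain ⟨mQ, hmQ⟩ := hder Q hQ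
        refine ⟨mP * mQ - mQ * mP, fun x => ?_, Submodule.subset_span
          ⟨mP, ⟨A.ext P, mem_spE hP, hmP⟩, mQ, ⟨A.ext Q, mem_spE hQ, hmQ⟩, rfl⟩⟩
        rw [ext_sub, ext_mul, ext_mul, LinearMap.sub_apply, Module.End.mul_apply,
          Module.End.mul_apply, hmP, hmQ, hmP, hmQ,
          ← map_sub, Matrix.mulVec_mulVec, Matrix.mulVec_mulVec, ← Matrix.sub_mulVec]
      | zero =>
        exact ⟨0, fun x => by
          rw [ext_zero, LinearMap.zero_apply, Matrix.zero_mulVec, map_zero], Submodule.zero_mem _⟩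
      | add a b _ _ ha hb =>
        obtain ⟨ma, hma, ha'⟩ := ha
        obtain ⟨mb, hmb, hb'⟩ := hb
        exact ⟨ma + mb, fun x => by
          rw [ext_add, LinearMap.add_apply, Matrix.add_mulVec, map_add, hma, hmb],
          Submodule.add_mem _ ha' hb'⟩
      | smul c a _ ha =>
        obtain ⟨ma, hma, ha'⟩ := ha
        exact ⟨(c : ℝ) • ma, fun x => by
          rw [ext_smul, LinearMap.smul_apply, Matrix.smul_mulVec, map_smul, hma],
          Submodule.smul_mem _ _ ha'⟩
    have step2 : ∃ m : M n, (∀ x, y (φ x) = φ (m *ᵥ x)) ∧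
          m ∈ Submodule.span ℝ {Z | ∃ X ∈ rW A (der 𝔮) φ, ∃ Y ∈ rW A (der 𝔮) φ,
            Z = X * Y - Y * X} := by
      clear hm
      induction hy using Submodule.span_induction with
      | mem y hy =>
        obtain ⟨X, hX, rfl⟩ := hy
        exact step X (hq.perfect hX)
      | zero =>
        exact ⟨0, fun x => by
          rw [LinearMap.zero_apply, Matrix.zero_mulVec, map_zero], Submodule.zero_mem _⟩
      | add a b _ _ ha hb =>
        obtain ⟨ma, hma, ha'⟩ := ha
        obtain ⟨mb, hmb, hb'⟩ := hb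
        exact ⟨ma + mb, fun x => by
          rw [LinearMap.add_apply, Matrix.add_mulVec, map_add, hma, hmb],
          Submodule.add_mem _ ha' hb'⟩
      | smul c a _ ha =>
        obtain ⟨ma, hma, ha'⟩ := ha
        exact ⟨c • ma, fun x => by
          rw [LinearMap.smul_apply, Matrix.smul_mulVec, map_smul, hma],
          Submodule.smul_mem _ _ ha'⟩
    obtain ⟨m', hm', hmem⟩ := step2
    rwa [mat_unique h w (m := m) (m' := m') fun x => by rw [← hm, ← hm']]
  · -- irreducible
    intro U hU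
    refine w.simple U fun X hX x hx y hxy => ?_
    have hz : ∀ x ∈ U, ∃ y ∈ U, A.ext z (φ x) = φ y := fun x hx =>
      ⟨al • (Complex.I • x), by
        have e : al • (Complex.I • x) = ((al : ℂ) * Complex.I) • x := by
          ext i
          simp only [Pi.smul_apply, smul_eq_mul, Complex.real_smul, mul_assoc]
        rw [e]
        exact U.smul_mem _ hx, ext_z h w x⟩
    have hrat : ∀ (c : ℚ), ∀ x ∈ U, (c : ℝ) • x ∈ U := fun c x hx => by
      have e : (c : ℝ) • x = (((c : ℝ) : ℂ)) • x := by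
        ext i
        simp only [Pi.smul_apply, smul_eq_mul, Complex.real_smul]
      rw [e]
      exact U.smul_mem _ hx
    have hpoly : ∀ p : Polynomial ℚ, ∀ x ∈ U, ∃ y ∈ U, A.ext (Polynomial.aeval z p) (φ x) = φ y := by
      intro p
      induction p using Polynomial.induction_on with
      | C c =>
        intro x hx
        refine ⟨(c : ℝ) • x, hrat c x hx, ?_⟩
        rw [Polynomial.aeval_C, Algebra.algebraMap_eq_smul_one, ext_smul, LinearMap.smul_apply,
          map_smul]
        congr 1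
        have e : A.ext (1 : Module.End ℚ A.H1) = 1 := A.ext_per fun u => by
          rw [A.ext_apply]
          rfl
        rw [e]
        rfl
      | add p q hp hq =>
        intro x hx
        obtain ⟨y, hy, e⟩ := hp x hx
        obtain ⟨y', hy', e'⟩ := hq x hx
        exact ⟨y + y', U.add_mem hy hy', by
          rw [map_add, ext_add, LinearMap.add_apply, e, e', map_add]⟩
      | monomial k c hk =>
        intro x hx
        obtain ⟨y, hy, e⟩ := hz x hx
        obtain ⟨y', hy', e'⟩ := hk y hy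
        refine ⟨y', hy', ?_⟩
        have e3 : Polynomial.aeval z (Polynomial.C c * Polynomial.X ^ (k + 1)) =
            Polynomial.aeval z (Polynomial.C c * Polynomial.X ^ k) * z := by
          rw [pow_succ, ← mul_assoc, map_mul, Polynomial.aeval_X]
        rw [e3, ext_mul, Module.End.mul_apply, e, e']
    have hgen : ∀ X ∈ 𝔮, ∀ x ∈ U, ∃ y ∈ U, A.ext X (φ x) = φ y := by
      intro X hX x hx
      obtain ⟨Z, hZ, d, hd, rfl, hc⟩ := hq.dec hX
      have c1 : ∀ Y ∈ A.NA, Y * Z = Z * Y := hq.comm Z fun Y hY => (hc Y hY).symm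
      have c2 : Z ∈ A.EA := fun Y hY => c1 Y (A.LA_le_NA hY)
      obtain ⟨p, hp⟩ := h.gen Z c2 fun Q hQ => A.NA_comm (hq.le hZ) hQ
      obtain ⟨y, hy, e⟩ := hpoly p x hx
      obtain ⟨m, hm⟩ := mat_NA h w (hq.le (hq.der_le hd))
      refine ⟨y + m *ᵥ x, U.add_mem hy (hU m ⟨A.ext d, mem_spE hd, hm⟩ x hx), ?_⟩
      rw [ext_add, LinearMap.add_apply, map_add, hm, ← e, hp]
    have hall : ∀ r ∈ Algebra.adjoin ℚ (𝔮 : Set (Module.End ℚ A.H1)), ∀ x ∈ U, ∃ y ∈ U,
        A.ext r (φ x) = φ y := by
      intro r hr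
      induction hr using Algebra.adjoin_induction with
      | mem X hX => exact hgen X hX
      | algebraMap c =>
        intro x hx
        have := hpoly (Polynomial.C c) x hx
        rwa [Polynomial.aeval_C] at this
      | add a b _ _ ha hb =>
        intro x hx
        obtain ⟨y, hy, e⟩ := ha x hx
        obtain ⟨y', hy', e'⟩ := hb x hx
        exact ⟨y + y', U.add_mem hy hy', by
          rw [ext_add, LinearMap.add_apply, e, e', map_add]⟩
      | mul a b _ _ ha hb =>
        intro x hx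
        obtain ⟨y, hy, e⟩ := hb x hx
        obtain ⟨y', hy', e'⟩ := ha y hy
        exact ⟨y', hy', by rw [ext_mul, Module.End.mul_apply, e, e']⟩
    obtain ⟨y', hy', e⟩ := hall X (hq.adjoin hX) x hx
    rw [hxy] at e
    rwa [w.inj e]

end Pool.Agent.N272.BTRR
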